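import Pool.Agent.P.MP_c8dc46_gt.MzFin

/-!
The Mazur pattern does not induce a homomorphism of the topological knot concordance group.
-/

namespace Pool.Agent.Results.MP_c8dc46_gt.MazurTop

open Pool.Agent.HH

/-- The Mazur pattern is a pattern of winding number one whose satellite operator is not additive
on the topological (locally flat) concordance group. -/
theorem result : IsPattern mzA mzD 1 ∧ ¬ IsHom mzA mzD := ⟨isPattern_mz, thmM⟩

end Pool.Agent.Results.MP_c8dc46_gt.MazurTop
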