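import Pool.Agent.P.MP_c8dc46_gt.DFin

/-!
A pattern whose satellite operator is additive on the topological knot concordance group has
winding number `0` or `± 1`.
-/

namespace Pool.Agent.Results.MP_c8dc46_gt.WindingTop

open Pool.Agent.HH

/-- Additive satellite operators on the topological concordance group have winding number of
absolute value at most one. -/
theorem result (a : ℝ → ℝ) (d : ℝ → ℂ) (w : ℤ) (hp : IsPattern a d w) (hh : IsHom a d) :
    |w| ≤ 1 := thmD hp hh

end Pool.Agent.Results.MP_c8dc46_gt.WindingTop
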